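import Pool.Agent.Mg.F402458.G2a0a37

namespace Pool.Agent.Results.MP_c2f0e4_an.Annulus

open Pool.Agent.MP_c2f0e4_an

theorem result (b1 b2 a1 a2 a3 : ℝ) (ha : (a1, a2, a3) ≠ (0, 0, 0)) (O : Set (ℝ × ℝ × ℝ))
    (hO : IsOpen O) (hne : (O ∩ sph).Nonempty)
    (hper : ∀ z ∈ O ∩ sph, OnCycle (fieldS b1 b2 a1 a2 a3) z) :
    (∃ r : ℝ, 0 < r ∧ ∀ p : ℝ × ℝ, p ≠ 0 → ‖p‖ < r → OnCycle (fieldP b1 b2 a1 a2 a3) p) ∧
    (∀ γ : ℝ → ℝ × ℝ, IsSol (fieldP b1 b2 a1 a2 a3) γ → Function.Periodic γ (2 * Real.pi)) ∧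
    ∀ γ : ℝ → ℝ × ℝ × ℝ, IsSol (fieldS b1 b2 a1 a2 a3) γ → γ 0 ∈ sph →
      (∃ T : ℝ, 0 < T ∧ Function.Periodic γ T) ∨
        ∃ e ∈ closure (Set.range γ), e.2.2 = 0 ∧ fieldS b1 b2 a1 a2 a3 e = 0 := by
  have hA : ∃ x, Cub a1 a2 a3 0 x ≠ 0 := by
    by_contra h
    push Not at h
    have h0 : Cub a1 a2 a3 0 = fun _ => 0 := funext h
    have h1 : deriv (Cub a1 a2 a3 0) = fun _ => 0 := by rw [h0]; funext x; simp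
    rw [Cub.deriv] at h1
    have e1 := congrFun h0 0
    have e2 := congrFun h1 0
    have e3 := congrFun h1 (Real.pi / 2)
    rw [Cub.zero] at e1 e2
    simp [Cub] at e3
    exact ha (by rw [e1, e2, e3])
  have hC := allMain _ _ ⟨_, _, _, _, rfl⟩ ⟨_, _, rfl⟩ hA (allSph b1 b2 a1 a2 a3 O hO hne hper)
  exact ⟨(allCentre b1 b2 a1 a2 a3 hC).1, (allCentre b1 b2 a1 a2 a3 hC).2,
    allGlob b1 b2 a1 a2 a3 hC⟩

end Pool.Agent.Results.MP_c2f0e4_an.Annulus
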